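import Mathlib
import Pool.Agent.Lib.MP_ac3f41_pr.Main

namespace Pool.Agent.Results.MP_ac3f41_pr.FullAnswer

open Filter MeasureTheory Pool.Agent.Lib.MP_ac3f41_pr

/-- If the Cayley graph of a group with respect to a finite generating set has infinitely many
ends, every limit along balls has critical probability `1` almost surely. -/
theorem result (Γ : Type) [Group Γ] (S : Set Γ) (hfin : S.Finite)
    (hgen : Subgroup.closure S = ⊤)
    (hends : InfinitelyManyEnds (SimpleGraph.mulCayley S))
    (o : Γ) (n : ℕ → ℕ) (hn : Tendsto n atTop atTop)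
    (Ω : Type*) [MeasurableSpace Ω] (P : Measure Ω) [IsProbabilityMeasure P]
    (H : Ω → RGraph) (hconn : ∀ ω, (H ω).G.Connected)
    (hlim : IsLocalLimit P H (fun k => cball (SimpleGraph.mulCayley S) o (n k))
      (fun k => (SimpleGraph.mulCayley S).induce (cball (SimpleGraph.mulCayley S) o (n k)))) :
    ∀ᵐ ω ∂P, pc (H ω).G = 1 :=
  main S hfin hgen hends o n hn P H (fun ω => (hconn ω).preconnected) hlim

end Pool.Agent.Results.MP_ac3f41_pr.FullAnswer
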